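import Mathlib
import Pool.Agent.Y235.EM.E6
import Pool.Agent.H922R2.K15

set_option autoImplicit false

/-!
Total degrees of polynomials whose Newton polygon is a trapezoid, and the degree condition `UU`.
-/

open MvPolynomial

namespace Pool.Agent.Y235.TZ

open Pool.Agent.H922R2 (td_aeval)
open Pool.Agent.H938R2.EL2 (UU)

theorem hull_td {F : MvPolynomial (Fin 2) ℂ} {m n : ℕ} (hn : 0 < n)
    (h : convexHull ℝ (insert ((0:ℝ), (0:ℝ))
      ((fun d : Fin 2 →₀ ℕ => ((d 0 : ℝ), (d 1 : ℝ))) '' (↑F.support : Set (Fin 2 →₀ ℕ))))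
      = {p : ℝ × ℝ | 0 ≤ p.2 ∧ p.2 ≤ (n : ℝ) ∧ 0 ≤ p.1 ∧ p.1 ≤ (m : ℝ) + (n : ℝ) - p.2}) :
    F.totalDegree = m + n := by
  have h1 : ∀ d, coeff d F ≠ 0 → d 1 ≤ n ∧ d 0 + d 1 ≤ m + n := by
    intro d hd
    have h2 : ((d 0 : ℝ), (d 1 : ℝ)) ∈ convexHull ℝ (insert ((0:ℝ), (0:ℝ))
      ((fun d : Fin 2 →₀ ℕ => ((d 0 : ℝ), (d 1 : ℝ))) '' (↑F.support : Set (Fin 2 →₀ ℕ)))) :=
      subset_convexHull ℝ _ (Set.mem_insert_of_mem _ ⟨d, mem_support_iff.2 hd, rfl⟩)
    rw [h] at h2
    obtain ⟨_, h3, _, h4⟩ := h2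
    simp only at h3 h4
    constructor
    · exact_mod_cast h3
    · have : (d 0 : ℝ) + d 1 ≤ m + n := by linarith
      exact_mod_cast this
  have hdeg : ∀ d : Fin 2 →₀ ℕ, (d.sum fun _ e => e) = d 0 + d 1 := by
    intro d
    rw [Finsupp.sum_fintype _ _ (fun _ => rfl), Fin.sum_univ_two]
  apply le_antisymm
  · rw [totalDegree]
    apply Finset.sup_le
    intro d hd
    rw [hdeg d]
    exact (h1 d (mem_support_iff.1 hd)).2
  · by_contra hlt
    push Not at hlt
    have hconv : Convex ℝ {p : ℝ × ℝ | p.1 + p.2 ≤ (m : ℝ) + n - 1} := by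
      intro x hx y hy s t hs ht hst
      simp only [Set.mem_ofPred_eq, Prod.fst_add, Prod.snd_add, Prod.smul_fst, Prod.smul_snd,
        smul_eq_mul] at hx hy ⊢
      have e1 := mul_le_mul_of_nonneg_left hx hs
      have e2 := mul_le_mul_of_nonneg_left hy ht
      have e3 : s * ((m : ℝ) + n - 1) + t * ((m : ℝ) + n - 1) = (m : ℝ) + n - 1 := by
        rw [← add_mul, hst, one_mul]
      linarith
    have hsub : insert ((0:ℝ), (0:ℝ))
        ((fun d : Fin 2 →₀ ℕ => ((d 0 : ℝ), (d 1 : ℝ))) '' (↑F.support : Set (Fin 2 →₀ ℕ))) ⊆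
        {p : ℝ × ℝ | p.1 + p.2 ≤ (m : ℝ) + n - 1} := by
      intro p hp
      rcases hp with rfl | ⟨d, hd, rfl⟩
      · simp only [Set.mem_ofPred_eq]
        have : (1 : ℝ) ≤ n := by exact_mod_cast hn
        have h2 : (0 : ℝ) ≤ m := Nat.cast_nonneg _
        linarith
      · simp only [Set.mem_ofPred_eq]
        have hd' : (d.sum fun _ e => e) ≤ F.totalDegree := le_totalDegree hd
        rw [hdeg d] at hd'
        have g3 : d 0 + d 1 + 1 ≤ m + n := by omega
        have : (d 0 : ℝ) + d 1 + 1 ≤ m + n := by exact_mod_cast g3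
        linarith
    have h3 := convexHull_min hsub hconv
    rw [h] at h3
    have h4 : ((m : ℝ), (n : ℝ)) ∈ {p : ℝ × ℝ | p.1 + p.2 ≤ (m : ℝ) + n - 1} := by
      apply h3
      refine ⟨Nat.cast_nonneg _, le_rfl, Nat.cast_nonneg _, ?_⟩
      simp
    simp only [Set.mem_ofPred_eq] at h4
    linarith

/-- the degree condition for a component whose degree is not smaller than that of the other -/
theorem UU_ge {F G : MvPolynomial (Fin 2) ℂ} (hG : 0 < G.totalDegree)
    (hFG : F.totalDegree ≤ G.totalDegree) : UU ![G, F] := by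
  intro h hlt _
  simp only [Matrix.cons_val_zero, Matrix.cons_val_one] at hlt ⊢
  have h1 := td_aeval (k := ℂ) (v := G) rfl hG h
  by_cases hd : h.natDegree ≤ 1
  · exfalso
    have h2 : (F - Polynomial.aeval G h).totalDegree ≤ max F.totalDegree (Polynomial.aeval G h).totalDegree :=
      totalDegree_sub _ _
    rw [h1] at h2
    have h3 : h.natDegree * G.totalDegree ≤ 1 * G.totalDegree := Nat.mul_le_mul_right _ hd
    rw [one_mul] at h3
    have := max_le hFG h3
    omega
  · push Not at hd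
    have h3 : F.totalDegree < (Polynomial.aeval G h).totalDegree := by
      rw [h1]
      have : 2 * G.totalDegree ≤ h.natDegree * G.totalDegree := Nat.mul_le_mul_right _ hd
      omega
    have h4 : (F - Polynomial.aeval G h).totalDegree = (Polynomial.aeval G h).totalDegree := by
      rw [sub_eq_add_neg, totalDegree_add_eq_right_of_totalDegree_lt (by rwa [totalDegree_neg]),
        totalDegree_neg]
    rw [h4, h1]
    exact dvd_mul_left _ _

/-- the degree condition when the degrees are `a s` and `b s` -/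
theorem UU_as {F G : MvPolynomial (Fin 2) ℂ} {a b s : ℕ} (ha : 2 ≤ a) (hab : Nat.gcd a b = 1)
    (hs : 0 < s) (hF : F.totalDegree = a * s) (hG : G.totalDegree = b * s)
    (h4 : ¬ a ∣ 4) (h6 : ¬ a ∣ 6) : UU ![F, G] := by
  intro h hlt hdv
  simp only [Matrix.cons_val_zero, Matrix.cons_val_one] at hlt hdv ⊢
  have hF0 : 0 < F.totalDegree := by rw [hF]; exact Nat.mul_pos (by omega) hs
  have h1 := td_aeval (k := ℂ) (v := F) rfl hF0 h
  have hne : G.totalDegree ≠ (Polynomial.aeval F h).totalDegree := by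
    rw [h1, hF, hG]
    intro he
    have h2 : b = h.natDegree * a := by
      have : b * s = (h.natDegree * a) * s := by rw [he]; ring
      exact Nat.eq_of_mul_eq_mul_right hs this
    have h3 : a ∣ b := ⟨h.natDegree, by rw [h2]; ring⟩
    have h5 : a ∣ Nat.gcd a b := Nat.dvd_gcd dvd_rfl h3
    rw [hab] at h5
    have := Nat.le_of_dvd one_pos h5
    omega
  rcases lt_or_gt_of_ne hne with hl | hl
  · have h5 : (G - Polynomial.aeval F h).totalDegree = (Polynomial.aeval F h).totalDegree := by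
      rw [sub_eq_add_neg, totalDegree_add_eq_right_of_totalDegree_lt (by rwa [totalDegree_neg]),
        totalDegree_neg]
    rw [h5, h1]
    exact dvd_mul_left _ _
  · exfalso
    have h5 : (G - Polynomial.aeval F h).totalDegree = G.totalDegree := by
      rw [sub_eq_add_neg, totalDegree_add_eq_left_of_totalDegree_lt (by rwa [totalDegree_neg])]
    rw [h5, hF, hG] at hdv
    have key : ∀ c : ℕ, a * s ∣ c * (b * s) → a ∣ c := by
      intro c hc
      have h7 : a * s ∣ (c * b) * s := by rwa [← mul_assoc] at hc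
      have h8 := Nat.dvd_of_mul_dvd_mul_right hs h7
      exact (Nat.Coprime.dvd_mul_right hab).1 h8
    rcases hdv with hd | hd
    · exact h4 (key 4 hd)
    · exact h6 (key 6 hd)

end Pool.Agent.Y235.TZ
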